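import Pool.Agent.Lib.MP_820b44_gt.Br.Base

/-!
# The `γ`-property is forced
-/

set_option linter.unusedSectionVars false
set_option linter.unusedVariables false
set_option linter.unusedSimpArgs false

namespace Pool.Agent.Lib.MP_820b44_gt

open Pool.Agent.SymExt SN

variable {P : Type} [PartialOrder P] [OrderTop P] {I J : Type} (K : Core P I J)

/-- the element number `i` of `U` contains all points of `Y` in the clopen set number `m` -/
noncomputable def TT (U : VN P) (m' : ℕ) (i : U.1.Idx) : RO P :=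
  roA (m (U.elt i) U) (RO.all fun j : J => RO.imp (roC (K.y j) m') (m (rn (K.y j)) (U.elt i)))

/-- the same, and `i` is least -/
noncomputable def TL (U : VN P) (m' : ℕ) (i : U.1.Idx) : RO P :=
  roA (TT K U m' i) (RO.all fun i' : {i' : U.1.Idx // WellOrderingRel i' i} =>
    RO.imp (TT K U m' i'.1) RO.bot)

theorem TT_iff {U : VN P} {k : ℕ} {i : U.1.Idx} {p : P} : TT K U k i p ↔
    m (U.elt i) U p ∧ ∀ j, ∀ q ≤ p, InC (K.y j) k q → m (rn (K.y j)) (U.elt i) q := Iff.rfl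

theorem TL_iff {U : VN P} {k : ℕ} {i : U.1.Idx} {p : P} : TL K U k i p ↔
    TT K U k i p ∧ ∀ i' : {i' : U.1.Idx // WellOrderingRel i' i}, ∀ q ≤ p, ¬ TT K U k i'.1 q :=
  Iff.rfl

theorem TL_unique {U : VN P} {k : ℕ} {i i' : U.1.Idx} {p : P} (h : TL K U k i p)
    (h' : TL K U k i' p) : i = i' := by
  rcases trichotomous_of WellOrderingRel i i' with h1 | h1 | h1
  · exact absurd h.1 (h'.2 ⟨i, h1⟩ p le_rfl)
  · exact h1
  · exact absurd h'.1 (h.2 ⟨i', h1⟩ p le_rfl)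

theorem exists_TL {U : VN P} {k : ℕ} {i : U.1.Idx} {p : P} (h : TT K U k i p) :
    ∃ q ≤ p, ∃ i, TL K U k i q := by
  have hwf : WellFounded (WellOrderingRel : U.1.Idx → U.1.Idx → Prop) := IsWellFounded.wf
  obtain ⟨j0, ⟨s, hs, hj0⟩, hmin⟩ := hwf.has_min {j | ∃ s ≤ p, TT K U k j s} ⟨i, p, le_rfl, h⟩
  exact ⟨s, hs, j0, hj0, fun i' q hq hT => hmin i'.1 ⟨q, hq.trans hs, hT⟩ i'.2⟩

/-- the name of the sequence -/
noncomputable def RN (U : VN P) (B : ℕ → RO P) : VN P :=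
  nn (fun z : ℕ × U.1.Idx => op (on z.1) (U.elt z.2)) fun z => roA (B z.1) (TL K U z.1 z.2)

theorem m_RN {U : VN P} {B : ℕ → RO P} {x y : VN P} {p : P} : m (op x y) (RN K U B) p ↔
    ∀ q ≤ p, ∃ r ≤ q, ∃ k i, B k r ∧ TL K U k i r ∧ e x (on k) r ∧ e y (U.elt i) r := by
  unfold RN
  rw [m_nn]
  refine forall_congr' fun q => forall_congr' fun _ => exists_congr fun r =>
    and_congr_right fun _ => ?_
  constructor
  · rintro ⟨⟨k, i⟩, h1, h2⟩
    obtain ⟨h3, h4⟩ := op_inj h2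
    exact ⟨k, i, h1.1, h1.2, h3, h4⟩
  · rintro ⟨k, i, h1, h2, h3, h4⟩
    exact ⟨⟨k, i⟩, ⟨h1, h2⟩, op_congr h3 h4⟩

/-- finitely many points of `Y` are in a clopen set whose trace on `Y` is contained in a member
of the cover -/
theorem exists_clopen {U : VN P} {q : P}
    (h1 : ∀ u, ∀ r ≤ q, m u U r → (lg : Lg (RO P) (VN P)).opn (om P) (YN K) u r)
    (h2 : ∀ F, ∀ r ≤ q, (lg : Lg (RO P) (VN P)).fin F r → (∀ z, ∀ s ≤ r, m z F s → m z (YN K) s) →
      ∀ s ≤ r, ∃ t ≤ s, ∃ u, m u U t ∧ ∀ z, ∀ s ≤ t, m z F s → m z u s)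
    (F : Finset J) (n : ℕ) {r : P} (hr : r ≤ q) :
    ∃ s ≤ r, ∃ k > n, (∃ i, TT K U k i s) ∧ ∀ j ∈ F, InC (K.y j) k s := by
  classical
  obtain ⟨t, ht, u, hu, hF⟩ := h2 (fm fun j : F => rn (K.y j)) r hr
    (fin_of_cov Finset.univ fun j => ⟨j, Finset.mem_univ _, fun p => e_refl _ _⟩)
    (fun z s hs hz => (m_YN K).2 fun v hv => by
      obtain ⟨w, hw, j, hj⟩ := m_fm.1 hz v hv
      exact ⟨w, hw, j, hj⟩) r le_rfl
  obtain ⟨t1, ht1, i, hi, he⟩ := (m_iff _ _ _).1 hu t le_rfl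
  have htq : t1 ≤ q := ht1.trans (ht.trans hr)
  have hop : (lg : Lg (RO P) (VN P)).opn (om P) (YN K) u t1 :=
    h1 u t1 htq (RO.mono _ ht1 hu)
  -- the neighbourhoods
  obtain ⟨t2, ht2, M, hM, _⟩ := list_dense' (P := P)
    (fun (j : J) (l : ℕ) s => ∀ y, ∀ t ≤ s, m y (YN K) t →
      (lg : Lg (RO P) (VN P)).sbl (on l) (rn (K.y j)) y t → m y u t)
    (fun j l {p q} hq h y t ht => h y t (ht.trans hq)) F.toList t1 (fun j hj s hs => by
      have hj' : j ∈ F := Finset.mem_toList.1 hj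
      have h3 : m (rn (K.y j)) u t1 :=
        hF _ t1 ht1 (m_fm_self (y := fun j : F => rn (K.y j)) ⟨j, hj'⟩)
      exact opn_on hop h3 s hs)
  obtain ⟨L, hL⟩ : ∃ L : ℕ, ∀ l ∈ M, l ≤ L := ⟨M.sum, fun l hl => List.le_sum_of_mem hl⟩
  have hnb : ∀ j ∈ F, ∀ y, ∀ t ≤ t2, m y (YN K) t →
      (lg : Lg (RO P) (VN P)).sbl (on L) (rn (K.y j)) y t → m y u t := by
    intro j hj y t ht hy hs
    obtain ⟨l, hl, h⟩ := hM j (Finset.mem_toList.2 hj)
    refine h y t ht hy ?_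
    rw [sbl_on] at hs ⊢
    exact fun k hk => hs k (hk.trans_le (hL l hl))
  obtain ⟨t3, ht3, N, hN, hN'⟩ := list_dense' (P := P)
    (fun (j : J) (s : Finset ℕ) p => j ∈ F ∧ Dec (K.y j) L s p)
    (fun j s {p q} hq h => ⟨h.1, h.2.mono hq⟩) F.toList t2 (fun j hj s hs => by
      obtain ⟨t, ht, v, hv⟩ := exists_Dec (K.y j) L s
      exact ⟨t, ht, v, Finset.mem_toList.1 hj, hv⟩)
  obtain ⟨k, hk, hkc⟩ := Cl_surj (L, N.toFinset) n
  refine ⟨t3, (ht3.trans (ht2.trans (ht1.trans ht))), k, hk, ⟨i, ?_⟩, fun j hj => ?_⟩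
  · rw [TT_iff]
    refine ⟨m_elt U i ((ht3.trans ht2).trans hi), fun j p hp hj => RO.dense _ fun v hv => ?_⟩
    obtain ⟨w, hw, s, hs, hd⟩ := hj v hv
    rw [hkc] at hs hd
    obtain ⟨j', hj', hjF, hd'⟩ := hN' s (List.mem_toFinset.1 hs)
    have hw3 : w ≤ t3 := hw.trans (hv.trans hp)
    have h5 : m (rn (K.y j)) u w := by
      refine hnb j' hjF _ w (hw3.trans ht3) (m_fm_self (y := fun j => rn (K.y j)) j) ?_
      rw [sbl_on]
      intro l hl x hx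
      rw [on_rn, on_rn]
      have h6 := hd l hl
      have h7 := hd'.mono hw3 l hl
      by_cases h8 : l ∈ s
      · exact iff_of_true ((K.y j' l).mono hx (h7.1 h8)) ((K.y j l).mono hx (h6.1 h8))
      · exact iff_of_false (h7.2 h8 x hx) (h6.2 h8 x hx)
    exact ⟨w, hw, m_right (RO.mono _ (hw3.trans (ht3.trans ht2)) he) h5⟩
  · intro v hv
    obtain ⟨s, hs, hjs⟩ := hN j (Finset.mem_toList.2 hj)
    refine ⟨v, le_rfl, s, ?_, ?_⟩
    · rw [hkc]
      exact List.mem_toFinset.2 hs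
    · rw [hkc]
      exact hjs.2.mono hv

theorem forced_gpr (p : P) : (lg : Lg (RO P) (VN P)).gpr (om P) (YN K) p := by
  simp only [Lg.gpr, ro_all, ro_imp, ro_and, ro_ex, ro_neg, ro_mem, ro_eq, sub_iff, app_iff,
    and_imp]
  intro U q hq h1 h2 q1 hq1
  obtain ⟨q2, hq2, B, hB1, hB2, hB3⟩ := K.gam q1 (fun k => roE fun i => TT K U k i)
    (fun F n r hr => by
      obtain ⟨s, hs, k, hk, ⟨i, hi⟩, hF⟩ := exists_clopen K (fun u r hr hu => (h1 u r hr hu).1) h2 F n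
        (hr.trans hq1)
      exact ⟨s, hs, k, hk, roE_of i hi, hF⟩)
  refine ⟨q2, hq2, RN K U B, ?_, ?_, ?_, ?_⟩
  · intro n r hr hn s hs
    obtain ⟨t, ht, n', hn'⟩ := m_om.1 hn s hs
    obtain ⟨v, hv, k, hk, hkB⟩ := hB2 n' t (ht.trans (hs.trans hr))
    have hv2 : v ≤ q2 := hv.trans (ht.trans (hs.trans hr))
    obtain ⟨w, hw, i, hi⟩ := hB1 k v hv2 hkB v le_rfl
    obtain ⟨x, hx, i', hi'⟩ := exists_TL K hi
    refine ⟨x, hx.trans (hw.trans (hv.trans ht)), on k, fun y hy => ⟨y, le_rfl, U.elt i', ?_, ?_⟩⟩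
    · exact m_left (e_symm (RO.mono _ (hy.trans (hx.trans (hw.trans hv))) hn')) (m_on_on.2 hk)
    · exact (m_RN K).2 fun z hz => ⟨z, le_rfl, k, i', RO.mono _ (hz.trans (hy.trans (hx.trans hw))) hkB,
        RO.mono _ (hz.trans hy) hi', e_refl _ _, e_refl _ _⟩
  · intro k u r hr h
    constructor
    · refine m_om.2 fun s hs => ?_
      obtain ⟨t, ht, k', i, _, _, h3, _⟩ := (m_RN K).1 h s hs
      exact ⟨t, ht, k', h3⟩
    · refine RO.dense _ fun s hs => ?_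
      obtain ⟨t, ht, k', i, _, h4, _, h3⟩ := (m_RN K).1 h s hs
      exact ⟨t, ht, m_left (e_symm h3) h4.1.1⟩
  · intro k u u' r hr h h'
    refine RO.dense _ fun s hs => ?_
    obtain ⟨t, ht, k1, i1, _, h4, h5, h6⟩ := (m_RN K).1 h s hs
    obtain ⟨v, hv, k2, i2, _, h7, h8, h9⟩ := (m_RN K).1 h' t (ht.trans hs)
    have hk : k1 = k2 := rig_on _ _ v (e_trans (e_symm (RO.mono _ hv h5)) h8)
    subst hk
    have hi : i1 = i2 := TL_unique K (RO.mono _ hv h4) h7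
    subst hi
    exact ⟨v, hv.trans ht, e_trans (RO.mono _ hv h6) (e_symm h9)⟩
  · intro y r hr hy s hs
    obtain ⟨t, ht, j, hj⟩ := (m_YN K).1 hy s hs
    obtain ⟨v, hv, n, hn⟩ := hB3 j t (ht.trans (hs.trans hr))
    refine ⟨v, hv.trans ht, on n, m_on_om n v, fun k u w hw hR hk => RO.dense _ fun x hx => ?_⟩
    obtain ⟨z, hz, k', i, h3, h4, h5, h6⟩ := (m_RN K).1 hR x hx
    have hzw : z ≤ w := hz.trans hx
    have hnk : n < k' := m_on_on.1 (m_right h5 (RO.mono _ hzw hk))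
    have h7 : InC (K.y j) k' z := hn k' hnk.le z (hzw.trans hw) h3
    have h8 : m (rn (K.y j)) (U.elt i) z := ((TT_iff K).1 h4.1).2 j z le_rfl h7
    exact ⟨z, hz, m_left (e_symm (RO.mono _ (hzw.trans (hw.trans hv)) hj)) (m_right (e_symm h6) h8)⟩

end Pool.Agent.Lib.MP_820b44_gt
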