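import Pool.Agent.Lib.MP_820b44_gt.Br.Base

/-!
# It is forced that `A × Y` does not satisfy `S₁(Γ, O)`
-/

set_option linter.unusedSectionVars false
set_option linter.unusedVariables false
set_option linter.unusedSimpArgs false

namespace Pool.Agent.Lib.MP_820b44_gt

open Pool.Agent.SymExt SN

variable {P : Type} [PartialOrder P] [OrderTop P] {I J : Type} (K : Core P I J)

theorem D_congr {i i' : I} {j j' : J} {p : P} (h : e (rn (K.a i)) (rn (K.a i')) p)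
    (h' : e (rn (K.y j)) (rn (K.y j')) p) (n : ℕ) (hD : K.D i j n p) : K.D i' j' n p := by
  refine (K.D i' j' n).dense fun q hq => ?_
  obtain ⟨r, hr, l, hl⟩ := K.cont i j n q
  have hrp := hr.trans hq
  refine ⟨r, hr, (hl i' j' r le_rfl (fun k _ s hs => ?_) (fun k _ s hs => ?_) r le_rfl).1
    ((K.D i j n).mono hrp hD)⟩
  · rw [← on_rn, ← on_rn]
    have := RO.mono _ (hs.trans hrp) h
    exact ⟨m_right this, m_right (e_symm this)⟩
  · rw [← on_rn, ← on_rn]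
    have := RO.mono _ (hs.trans hrp) h'
    exact ⟨m_right this, m_right (e_symm this)⟩

/-- truth value of: `k` is the least number with `(n, k)` in the image of `(a i, y j)` -/
noncomputable def ZZ (i : I) (j : J) (n k : ℕ) : RO P :=
  roA (K.D i j (Nat.pair n k)) (RO.all fun k' : Fin k => RO.imp (K.D i j (Nat.pair n k')) RO.bot)

theorem ZZ_iff {i : I} {j : J} {n k : ℕ} {p : P} : ZZ K i j n k p ↔
    K.D i j (Nat.pair n k) p ∧ ∀ k' : Fin k, ∀ q ≤ p, ¬ K.D i j (Nat.pair n k') q := Iff.rfl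

theorem ZZ_unique {i : I} {j : J} {n k k' : ℕ} {p : P} (h : ZZ K i j n k p)
    (h' : ZZ K i j n k' p) : k = k' := by
  rcases lt_trichotomy k k' with h1 | h1 | h1
  · exact absurd h.1 (h'.2 ⟨k, h1⟩ p le_rfl)
  · exact h1
  · exact absurd h'.1 (h.2 ⟨k', h1⟩ p le_rfl)

theorem ZZ_congr {i i' : I} {j j' : J} {p : P} (h : e (rn (K.a i)) (rn (K.a i')) p)
    (h' : e (rn (K.y j)) (rn (K.y j')) p) {n k : ℕ} (hD : ZZ K i j n k p) : ZZ K i' j' n k p :=
  ⟨D_congr K h h' _ hD.1, fun k' q hq hD' => hD.2 k' q hq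
    (D_congr K (e_symm (RO.mono _ hq h)) (e_symm (RO.mono _ hq h')) _ hD')⟩

/-- the name of the relation -/
noncomputable def ZN : VN P :=
  nn (fun z : (I × J) × ℕ × ℕ => op (op (rn (K.a z.1.1)) (rn (K.y z.1.2)))
    (op (on z.2.1) (on z.2.2))) fun z => ZZ K z.1.1 z.1.2 z.2.1 z.2.2

theorem m_ZN {a y n k : VN P} {p : P} : m (op (op a y) (op n k)) (ZN K) p ↔
    ∀ q ≤ p, ∃ r ≤ q, ∃ i j n' k', ZZ K i j n' k' r ∧ e a (rn (K.a i)) r ∧ e y (rn (K.y j)) r ∧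
      e n (on n') r ∧ e k (on k') r := by
  unfold ZN
  rw [m_nn]
  refine forall_congr' fun q => forall_congr' fun _ => exists_congr fun r =>
    and_congr_right fun _ => ?_
  constructor
  · rintro ⟨⟨⟨i, j⟩, n', k'⟩, h1, h2⟩
    obtain ⟨h3, h4⟩ := op_inj h2
    obtain ⟨h5, h6⟩ := op_inj h3
    obtain ⟨h7, h8⟩ := op_inj h4
    exact ⟨i, j, n', k', h1, h5, h6, h7, h8⟩
  · rintro ⟨i, j, n', k', h1, h5, h6, h7, h8⟩
    exact ⟨⟨⟨i, j⟩, n', k'⟩, h1, op_congr (op_congr h5 h6) (op_congr h7 h8)⟩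

theorem on_ZN {i : I} {j : J} {n k : ℕ} {p : P} :
    m (op (op (rn (K.a i)) (rn (K.y j))) (op (on n) (on k))) (ZN K) p ↔ ZZ K i j n k p := by
  rw [m_ZN]
  constructor
  · intro h
    refine (ZZ K i j n k).dense fun q hq => ?_
    obtain ⟨r, hr, i', j', n', k', h1, h2, h3, h4, h5⟩ := h q hq
    have := rig_on _ _ _ h4
    subst this
    have := rig_on _ _ _ h5
    subst this
    exact ⟨r, hr, ZZ_congr K (e_symm h2) (e_symm h3) h1⟩
  · intro h q hq
    exact ⟨q, le_rfl, i, j, n, k, (ZZ K i j n k).mono hq h, e_refl _ _, e_refl _ _, e_refl _ _,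
      e_refl _ _⟩

/-- the truth value depends on initial segments only -/
theorem exists_mod (i : I) (j : J) (n k : ℕ) (p : P) : ∃ q ≤ p, ∃ l, ∀ i' j', ∀ r ≤ q,
    (∀ k < l, ∀ s ≤ r, (K.a i k s ↔ K.a i' k s)) → (∀ k < l, ∀ s ≤ r, (K.y j k s ↔ K.y j' k s)) →
      ZZ K i' j' n k r → ZZ K i j n k r := by
  obtain ⟨q, hq, M, hM, _⟩ := list_dense' (P := P) (fun (c l : ℕ) q => ∀ i' j', ∀ r ≤ q,
    (∀ k < l, ∀ s ≤ r, (K.a i k s ↔ K.a i' k s)) → (∀ k < l, ∀ s ≤ r, (K.y j k s ↔ K.y j' k s)) →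
      ∀ s ≤ r, (K.D i j (Nat.pair n c) s ↔ K.D i' j' (Nat.pair n c) s))
    (fun c l {p q} hq h i' j' r hr => h i' j' r (hr.trans hq)) (List.range (k + 1)) p
    (fun c _ q _ => K.cont i j (Nat.pair n c) q)
  obtain ⟨L, hL⟩ : ∃ L : ℕ, ∀ l ∈ M, l ≤ L := ⟨M.sum, fun l hl => List.le_sum_of_mem hl⟩
  refine ⟨q, hq, L, fun i' j' r hr h1 h2 hZ => ?_⟩
  have key : ∀ c ≤ k, ∀ s ≤ r, (K.D i j (Nat.pair n c) s ↔ K.D i' j' (Nat.pair n c) s) := by
    intro c hc
    obtain ⟨l, hl, h⟩ := hM c (List.mem_range.2 (by omega))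
    exact h i' j' r hr (fun k hk => h1 k (hk.trans_le (hL l hl)))
      (fun k hk => h2 k (hk.trans_le (hL l hl)))
  exact ⟨(key k le_rfl r le_rfl).2 hZ.1, fun k' s hs hD => hZ.2 k' s hs
    ((key k' k'.2.le s hs).1 hD)⟩

theorem forced_ns1 (p : P) : (lg : Lg (RO P) (VN P)).ns1 (om P) (AN K) (YN K) p := by
  simp only [Lg.ns1, ro_all, ro_imp, ro_and, ro_ex, ro_neg, ro_mem, ro_eq, app_iff, ap4_iff,
    and_imp]
  intro q0 _
  refine ⟨q0, le_rfl, ZN K, ?_, ?_, ?_⟩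
  · intro a y n k k' q hq h h'
    refine RO.dense _ fun r hr => ?_
    obtain ⟨s, hs, i, j, n1, k1, h1, h2, h3, h4, h5⟩ := (m_ZN K).1 h r hr
    obtain ⟨t, ht, i', j', n2, k2, h6, h7, h8, h9, h10⟩ := (m_ZN K).1 h' s (hs.trans hr)
    have := rig_on _ _ _ (e_trans (e_symm (RO.mono _ ht h4)) h9)
    subst this
    have h11 := ZZ_congr K (e_trans (e_symm (RO.mono _ ht h2)) h7)
      (e_trans (e_symm (RO.mono _ ht h3)) h8) (RO.mono _ ht h1)
    have := ZZ_unique K h11 h6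
    subst this
    exact ⟨t, ht.trans hs, e_trans (RO.mono _ ht h5) (e_symm h10)⟩
  · intro a y n k q hq ha hy hn hk hno r hr
    obtain ⟨r1, hr1, i, hi⟩ := (m_AN K).1 ha r hr
    obtain ⟨r2, hr2, j, hj⟩ := (m_YN K).1 hy r1 (hr1.trans hr)
    obtain ⟨r3, hr3, n', hn'⟩ := m_om.1 hn r2 (hr2.trans (hr1.trans hr))
    obtain ⟨r4, hr4, k', hk'⟩ := m_om.1 hk r3 (hr3.trans (hr2.trans (hr1.trans hr)))
    obtain ⟨r5, hr5, l, hl⟩ := exists_mod K i j n' k' r4
    have h54 := hr5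
    have h53 := hr5.trans hr4
    have h52 := h53.trans hr3
    have h51 := h52.trans hr2
    refine ⟨r5, h51.trans hr1, on l, m_on_om l r5, ?_⟩
    intro a' y' s hs ha' hy' hsa hsy t ht hZ
    obtain ⟨u, hu, i', j', n2, k2, h1, h2, h3, h4, h5⟩ := (m_ZN K).1 hZ t le_rfl
    have hus : u ≤ s := hu.trans ht
    have hu5 : u ≤ r5 := hus.trans hs
    have := rig_on _ _ _ (e_trans (e_symm (RO.mono _ (hu5.trans h53) hn')) h4)
    subst this
    have := rig_on _ _ _ (e_trans (e_symm (RO.mono _ (hu5.trans hr5) hk')) h5)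
    subst this
    have h6 := sbl_on.1 (sbl_congr (e_refl _ _) (RO.mono _ (hu5.trans h51) hi) h2
      (RO.mono _ hus hsa))
    have h7 := sbl_on.1 (sbl_congr (e_refl _ _) (RO.mono _ (hu5.trans h52) hj) h3
      (RO.mono _ hus hsy))
    have h8 : ZZ K i j n' k' u := by
      refine hl i' j' u hu5 (fun c hc v hv => ?_) (fun c hc v hv => ?_) h1
      · rw [← on_rn, ← on_rn]
        exact h6 c hc v hv
      · rw [← on_rn, ← on_rn]
        exact h7 c hc v hv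
    refine hno u (hu5.trans (h51.trans (hr1.trans hr))) ((m_ZN K).2 fun v hv => ?_)
    exact ⟨v, le_rfl, i, j, n', k', RO.mono _ hv h8, RO.mono _ (hv.trans (hu5.trans h51)) hi,
      RO.mono _ (hv.trans (hu5.trans h52)) hj, RO.mono _ (hv.trans (hu5.trans h53)) hn',
      RO.mono _ (hv.trans (hu5.trans hr5)) hk'⟩
  · intro h q hq hh r hr
    obtain ⟨s, hs, i, j, hij⟩ := K.surj (fun c => m (op (on c.unpair.1) (on c.unpair.2)) h) r
    have hsq := hs.trans hr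
    have hfun := isFun_iff.1 hh
    refine ⟨s, hs, rn (K.a i), fun t ht => ⟨t, le_rfl, rn (K.y j),
      m_fm_self (y := fun i => rn (K.a i)) i, m_fm_self (y := fun j => rn (K.y j)) j, ?_⟩⟩
    intro n k u hu hnk
    have hus : u ≤ s := hu.trans ht
    refine (m_ZN K).2 fun v hv => ?_
    have hvs : v ≤ s := hv.trans hus
    obtain ⟨v1, hv1, n1, hn1⟩ := (arg_on hh (hvs.trans hsq) (RO.mono _ hv hnk)).1 v le_rfl
    have hk0 : m k (om P) v1 := RO.mono _ hv1 (arg_on hh (hvs.trans hsq) (RO.mono _ hv hnk)).2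
    obtain ⟨v2, hv2, k1, hk1⟩ := m_om.1 hk0 v1 le_rfl
    have hv2s : v2 ≤ s := hv2.trans (hv1.trans hvs)
    have h1 : m (op (on n1) (on k1)) h v2 := m_left (op_congr (RO.mono _ hv2 hn1) hk1)
      (RO.mono _ (hv2.trans (hv1.trans hv)) hnk)
    refine ⟨v2, hv2.trans hv1, i, j, n1, k1, ⟨?_, fun k' w hw hD => ?_⟩, e_refl _ _, e_refl _ _,
      RO.mono _ hv2 hn1, hk1⟩
    · refine (hij _ v2 hv2s).2 ?_
      rw [Nat.unpair_pair]
      exact h1
    · have h2 := (hij _ w (hw.trans hv2s)).1 hD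
      rw [Nat.unpair_pair] at h2
      have h3 := hfun.2.2 (on n1) (on k1) (on k') w (hw.trans (hv2s.trans hsq)) (RO.mono _ hw h1) h2
      have h4 := rig_on _ _ _ h3
      have := k'.2
      omega

end Pool.Agent.Lib.MP_820b44_gt
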