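import Pool.Agent.Lib.MP_820b44_gt.Br.Base

/-!
# It is forced that `A` is smaller than the dominating number
-/

set_option linter.unusedSectionVars false
set_option linter.unusedVariables false
set_option linter.unusedSimpArgs false

namespace Pool.Agent.Lib.MP_820b44_gt

open Pool.Agent.SymExt SN

variable {P : Type} [PartialOrder P] [OrderTop P] {I J : Type} (K : Core P I J)

/-- truth value of `F (a i) (n) = k` -/
noncomputable def GG (F : VN P) (i : I) (n k : ℕ) : RO P :=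
  roE fun d : VN P => roA (m (op (rn (K.a i)) d) F) (m (op (on n) (on k)) d)

theorem GG_iff {F : VN P} {i : I} {n k : ℕ} {p : P} : GG K F i n k p ↔
    ∀ q ≤ p, ∃ r ≤ q, ∃ d : VN P, m (op (rn (K.a i)) d) F r ∧ m (op (on n) (on k)) d r := Iff.rfl

/-- the name of the function with truth values `h` -/
noncomputable def fN (h : ℕ → ℕ → RO P) : VN P :=
  nn (fun z : ℕ × ℕ => op (on z.1) (on z.2)) fun z => h z.1 z.2

theorem m_fN {h : ℕ → ℕ → RO P} {x y : VN P} {p : P} : m (op x y) (fN h) p ↔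
    ∀ q ≤ p, ∃ r ≤ q, ∃ n k, h n k r ∧ e x (on n) r ∧ e y (on k) r := by
  unfold fN
  rw [m_nn]
  refine forall_congr' fun q => forall_congr' fun _ => exists_congr fun r =>
    and_congr_right fun _ => ?_
  constructor
  · rintro ⟨⟨n, k⟩, h1, h2⟩
    obtain ⟨h3, h4⟩ := op_inj h2
    exact ⟨n, k, h1, h3, h4⟩
  · rintro ⟨n, k, h1, h3, h4⟩
    exact ⟨⟨n, k⟩, h1, op_congr h3 h4⟩

theorem on_fN {h : ℕ → ℕ → RO P} {n k : ℕ} {p : P} : m (op (on n) (on k)) (fN h) p ↔ h n k p := by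
  rw [m_fN]
  constructor
  · intro h1
    refine (h n k).dense fun q hq => ?_
    obtain ⟨r, hr, n', k', h2, h3, h4⟩ := h1 q hq
    have := rig_on _ _ _ h3
    subst this
    have := rig_on _ _ _ h4
    subst this
    exact ⟨r, hr, h2⟩
  · intro h1 q hq
    exact ⟨q, le_rfl, n, k, (h n k).mono hq h1, e_refl _ _, e_refl _ _⟩

theorem isFun_fN {h : ℕ → ℕ → RO P} {p : P}
    (h1 : ∀ n k k', ∀ q ≤ p, h n k q → h n k' q → k = k')
    (h2 : ∀ n, ∀ q ≤ p, ∃ r ≤ q, ∃ k, h n k r) : lg.isFun (fN h) (om P) (om P) p := by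
  rw [isFun_iff]
  refine ⟨fun z q hq hz r hr => ?_, fun x q hq hx r hr => ?_, fun x y y' q hq h3 h4 => ?_⟩
  · unfold fN at hz
    rw [m_nn] at hz
    obtain ⟨s, hs, ⟨n, k⟩, _, h4⟩ := hz r hr
    exact ⟨s, hs, on n, on k, m_on_om n s, m_on_om k s, h4⟩
  · obtain ⟨s, hs, n, hn⟩ := m_om.1 hx r hr
    obtain ⟨t, ht, k, hk⟩ := h2 n s (hs.trans (hr.trans hq))
    exact ⟨t, ht.trans hs, on k, m_left (op_congr (e_symm (RO.mono _ ht hn)) (e_refl _ _))
      (on_fN.2 hk)⟩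
  · refine RO.dense _ fun r hr => ?_
    obtain ⟨s, hs, n, k, h5, h6, h7⟩ := m_fN.1 h3 r hr
    obtain ⟨t, ht, n', k', h8, h9, h10⟩ := m_fN.1 h4 s (hs.trans hr)
    have := rig_on _ _ _ (e_trans (e_symm (RO.mono _ ht h6)) h9)
    subst this
    have := h1 n k k' t (ht.trans (hs.trans (hr.trans hq))) ((h n k).mono ht h5) h8
    subst this
    exact ⟨t, ht.trans hs, e_trans (RO.mono _ ht h7) (e_symm h10)⟩

theorem forced_sml (p : P) : (lg : Lg (RO P) (VN P)).sml (om P) (AN K) p := by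
  simp only [Lg.sml, ro_all, ro_imp, ro_and, ro_ex, ro_neg, ro_mem, ro_eq, app_iff,
    and_imp]
  intro F B q hq hF hF2 q1 hq1
  have hF' := isFun_iff.1 hF
  obtain ⟨p', hp', h, hh1, hh2, hh3⟩ := K.dom q1 (GG K F) (by
    intro i n k k' r hr h1 h2
    obtain ⟨s, hs, d, h3, h4⟩ := h1 r le_rfl
    obtain ⟨t, ht, d', h5, h6⟩ := h2 s hs
    have htq : t ≤ q := ht.trans (hs.trans (hr.trans hq1))
    have h7 : e d d' t := hF'.2.2 _ d d' t htq (RO.mono _ ht h3) h5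
    have h8 := (isFun_iff.1 (hF2 _ d' t htq h5)).2.2 (on n) (on k) (on k') t le_rfl
      (m_right h7 (RO.mono _ ht h4)) h6
    exact rig_on _ _ _ h8)
  have hpq : p' ≤ q := hp'.trans hq1
  refine ⟨p', hp', fN h, isFun_fN hh1 hh2, fun a g r hr hag s hs hled => ?_⟩
  obtain ⟨s1, hs1, N, hN, hN2⟩ := led_iff.1 hled s le_rfl
  obtain ⟨s2, hs2, N0, hN0⟩ := m_om.1 hN s1 le_rfl
  have hsr : s2 ≤ r := hs2.trans (hs1.trans hs)
  have hag' : m (op a g) F s2 := RO.mono _ hsr hag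
  -- the argument is an element of `A`
  obtain ⟨s3, hs3, a', b', ha', _, he'⟩ := hF'.1 _ s2 (hsr.trans (hr.trans hpq)) hag' s2 le_rfl
  obtain ⟨he1, _⟩ := op_inj he'
  obtain ⟨s4, hs4, i, hi⟩ := (m_AN K).1 ha' s3 le_rfl
  have hs42 : s4 ≤ s2 := hs4.trans hs3
  have hai : e a (rn (K.a i)) s4 := e_trans (RO.mono _ hs4 he1) hi
  have hs4p : s4 ≤ p' := hs42.trans (hsr.trans hr)
  have hFi : m (op (rn (K.a i)) g) F s4 := m_left (op_congr hai (e_refl _ _)) (RO.mono _ hs42 hag')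
  have hg : lg.isFun g (om P) (om P) s4 := hF2 _ g s4 (hs4p.trans hpq) hFi
  refine hh3 i (N0 + 1) s4 hs4p fun n hn t ht => ?_
  obtain ⟨t1, ht1, l, hl⟩ := hh2 n t (ht.trans hs4p)
  obtain ⟨t2, ht2, y, hy, hy'⟩ := app_on hg n t1 (ht1.trans ht)
  obtain ⟨t3, ht3, k, hk⟩ := m_om.1 hy' t2 le_rfl
  have ht3s : t3 ≤ s4 := ht3.trans (ht2.trans (ht1.trans ht))
  have h1 : m (op (on n) (on k)) g t3 := m_left (op_congr (e_refl _ _) hk) (RO.mono _ ht3 hy)
  have h2 : GG K F i n k t3 := roE_of g ⟨RO.mono _ ht3s hFi, h1⟩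
  have hl3 : h n l t3 := (h n l).mono (ht3.trans ht2) hl
  have ht3s1 : t3 ≤ s1 := ht3s.trans (hs42.trans hs2)
  obtain ⟨t4, ht4, h5⟩ := hN2 (on n) (on l) (on k) t3 ht3s1 (m_on_om n t3)
    (m_left (e_symm (RO.mono _ (ht3s.trans hs42) hN0)) (m_on_on.2 (by omega))) (on_fN.2 hl3) h1 t3 le_rfl
  refine ⟨t3, ht3.trans (ht2.trans ht1), k, l, h2, hl3, ?_⟩
  rcases h5 with h5 | h5
  · exact (m_on_on.1 h5).le
  · exact (rig_on _ _ _ h5).le

end Pool.Agent.Lib.MP_820b44_gt
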