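import Pool.Agent.Lib.MP_820b44_gt.Br.ConvB
import Pool.Agent.Lib.MP_820b44_gt.Br.Gam
import Pool.Agent.Lib.MP_820b44_gt.Br.Sml
import Pool.Agent.Lib.MP_820b44_gt.Br.Ns1
import Pool.Agent.Lib.MP_1ab623_gt.Final
import Pool.Agent.SymExt.FinalPart

/-!
# The model of `ZFC`
-/

set_option linter.unusedSectionVars false
set_option linter.unusedVariables false
set_option linter.unusedSimpArgs false

universe u

namespace Pool.Agent.Lib.MP_820b44_gt

open Pool.Agent.ZF Pool.Agent.Lib Pool.Agent.Lib.MP_1929a6_lc Pool.Agent.Lib.MP_1ab623_gt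
open Pool.Agent.SymExt

section conv

variable {M : Type u} (E : M → M → Prop)

theorem sbl_prop (n x y : M) : (propLg E).sbl n x y ↔ AgreeBelow E n x y := by
  simp only [Lg.sbl, prop_all, prop_imp, prop_iff, prop_mem]
  exact Iff.rfl

theorem opn_prop (w X U : M) : (propLg E).opn w X U ↔ IsOpenSubset E w X U := by
  simp only [Lg.opn, prop_all, prop_imp, prop_and, prop_ex, prop_mem, sub_prop, sbl_prop,
    and_imp]
  exact Iff.rfl

theorem led_prop (hE : IsZF E) (w g h : M) : (propLg E).led w g h ↔ Dominates E w g h := by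
  simp only [Lg.led, prop_all, prop_imp, prop_and, prop_or, prop_ex, prop_mem, prop_eq,
    MP_1ab623_gt.app_prop E hE, and_imp]
  exact Iff.rfl

theorem sml_prop (hE : IsZF E) (w A : M) : (propLg E).sml w A ↔ LessThanD E w A := by
  simp only [Lg.sml, prop_all, prop_imp, prop_and, prop_ex, prop_neg, prop_mem,
    MP_1ab623_gt.app_prop E hE, isFun_prop E hE, led_prop E hE, and_imp]
  exact Iff.rfl

theorem ap4_prop (hE : IsZF E) (Z a y n k : M) : (propLg E).ap4 Z a y n k ↔
    ∃ v, IsPair E v n k ∧ Op E Z a y v := by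
  simp only [Lg.ap4, prop_ex, prop_and, MP_1ab623_gt.isOP_prop E hE, ap2_prop E hE]

end conv

/-- from the core sentence to the statement -/
theorem counterexample_of {M : Type} {E : M → M → Prop} (hE : IsZF E)
    (h : (propLg E).cor) : ∃ w A Y D : M, IsOmega E w ∧ IsCounterexample E w A Y D := by
  simp only [Lg.cor, prop_ex, prop_and, isOm_prop E hE, sml_prop E hE] at h
  obtain ⟨w, A, Y, hw, hA, hY, hG, hS, hN⟩ := h
  have hfin : ∀ x : M, (propLg E).fin x ↔ IsFinite E x := fin_prop E hE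
  simp only [Lg.unb, prop_all, prop_imp, prop_and, prop_ex, prop_mem, sub_prop] at hA
  simp only [Lg.rls, prop_all, prop_imp, prop_mem, sub_prop] at hY
  simp only [Lg.gpr, prop_all, prop_imp, prop_and, prop_ex, prop_neg, prop_eq, prop_mem, sub_prop,
    opn_prop, hfin, MP_1ab623_gt.app_prop E hE, and_imp] at hG
  simp only [Lg.ns1, prop_all, prop_imp, prop_and, prop_ex, prop_neg, prop_eq, prop_mem,
    ap4_prop E hE, isFun_prop E hE, MP_1ab623_gt.app_prop E hE, sbl_prop, and_imp] at hN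
  let _ : Model M := ⟨E, hE⟩
  have hw' : w = om := (omega_iff (M := M)).1 hw
  subst hw'
  obtain ⟨Z, hZ1, hZ2, hZ3⟩ := hN
  have hap : ∀ a y n k : M, (∃ v, IsPair E v n k ∧ Op E Z a y v) ↔
      pr (pr a y) (pr n k) ∈ Z := by
    intro a y n k
    constructor
    · rintro ⟨v, hv, p, hp, hpv⟩
      have h1 : v = pr n k := (isPair_iff (M := M)).1 hv
      have h2 : p = pr a y := (isPair_iff (M := M)).1 hp
      have h3 : pr p v ∈ Z := (maps_iff (M := M)).1 hpv
      rw [← h1, ← h2]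
      exact h3
    · intro h
      exact ⟨pr n k, (isPair_iff (M := M)).2 rfl, pr a y, (isPair_iff (M := M)).2 rfl,
        (maps_iff (M := M)).2 h⟩
  simp only [hap] at hZ1 hZ2 hZ3
  refine ⟨om, A, Y, prod A Y, hw, ⟨fun a ha => ⟨(hA a ha).1, ?_⟩, hS, hY, ?_, ?_, ?_⟩⟩
  · exact not_finite_of_unb (M := M) (hA a ha).1 (hA a ha).2
  · refine gammaProperty_of (M := M) hY fun U h1 h2 => ?_
    obtain ⟨R, g1, g2, g3, g4⟩ := hG U h1 fun F hF hFY => h2 F ((isFinite_iff (M := M)).1 hF) hFY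
    have hm : ∀ k u : M, Maps E R k u ↔ pr k u ∈ R := fun k u => maps_iff (M := M)
    simp only [hm] at g1 g2 g3 g4
    exact ⟨R, g1, g2, g3, g4⟩
  · intro p
    change p ∈ prod A Y ↔ _
    rw [mem_prod]
    constructor
    · rintro ⟨x, hx, y, hy, rfl⟩
      exact ⟨x, y, hx, hy, (isPair_iff (M := M)).2 rfl⟩
    · rintro ⟨x, y, hx, hy, hp⟩
      exact ⟨x, hx, y, hy, (isPair_iff (M := M)).1 hp⟩
  · refine not_selection (M := M) (Z := Z) (fun p => ?_) hZ1 hZ2 ?_
    · rw [mem_prod]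
      constructor
      · rintro ⟨x, hx, y, hy, rfl⟩
        exact ⟨x, y, hx, hy, rfl⟩
      · rintro ⟨x, y, hx, hy, rfl⟩
        exact ⟨x, hx, y, hy, rfl⟩
    · intro h hh
      obtain ⟨a, y, ha, hy, h1⟩ := hZ3 h hh
      exact ⟨a, y, ha, hy, fun n k hnk => h1 n k ((maps_iff (M := M)).2 hnk)⟩

open SN in
theorem forced_cor {P I J : Type} [PartialOrder P] [OrderTop P] (K : Core P I J) (p : P) :
    (lg : Lg (RO P) (VN P)).cor p := by
  simp only [Lg.cor, ro_ex, ro_and]
  intro q _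
  exact ⟨q, le_rfl, om _, fun q1 _ => ⟨q1, le_rfl, AN K, fun q2 _ => ⟨q2, le_rfl, YN K,
    isOm_om _, forced_unb K _, forced_rls K _, forced_gpr K _, forced_sml K _, forced_ns1 K _⟩⟩⟩

/-- the main theorem of this directory -/
theorem goal_of_core {P I J : Type} [PartialOrder P] [OrderTop P] (K : Core P I J) : Goal := by
  obtain ⟨M, E, t, hE, _, h⟩ := exists_model (P := P) tvF
    (fun _ => Classical.arbitrary _) ⊤
  have hZ := hE.isZF
  have hC := h .choice (fun s => by
    rw [eval_choice]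
    exact forced_choice ⊤) t
  have hT := h .cor (fun s => by
    rw [eval_cor]
    exact forced_cor K ⊤) t
  rw [eval_choice] at hC
  rw [eval_cor] at hT
  refine ⟨M, E, ⟨hZ, ?_⟩, counterexample_of hZ hT⟩
  simp only [Lg.choice, prop_all, prop_imp, prop_and, prop_ex, prop_mem, prop_eq] at hC
  intro F h1 h2
  obtain ⟨C, h3⟩ := hC F ⟨h1, fun x y t h => h2 x y t h.1.1 h.1.2 h.2.1 h.2.2⟩
  refine ⟨C, fun x hx => ?_⟩
  obtain ⟨t, ht, ht'⟩ := h3 x hx
  exact ⟨t, ht, ht'⟩

end Pool.Agent.Lib.MP_820b44_gt
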