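import Pool.Agent.Lib.MP_820b44_gt.Statement
import Pool.Agent.Lib.MP_1929a6_lc.Bridge

/-!
# From the core sentence to the statement, in a model of `ZF`: finite sets and the `γ`-property
-/

set_option linter.unusedSectionVars false
set_option linter.unusedVariables false

universe u

namespace Pool.Agent.Lib.MP_820b44_gt

open Pool.Agent.ZF Pool.Agent.Lib.MP_1929a6_lc Pool.Agent.Lib.MP_1ab623_gt

variable {M : Type u} [Model M]

theorem omega_iff {w : M} : IsOmega (Model.E (M := M)) w ↔ w = om := by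
  unfold IsOmega
  simp only [isNatural_iff]
  constructor
  · intro h
    exact ext' h
  · rintro rfl n
    exact Iff.rfl

theorem fm_of_kfin {x : M} (hx : KFin x) {P : M → Prop} (h : ∀ z, P z → z ∈ x) :
    FinitelyMany (Model.E (M := M)) om P := by
  obtain ⟨n, f, hn, hf, hd, hr, _⟩ := KFin_iff.1 hx
  refine ⟨n, f, x, hn, isFunction_iff.2 ⟨hf, hd, fun k hk => ?_⟩, fun z hz => ?_⟩
  · rw [← hr, mem_ran]
    refine ⟨k, hf.app_mem ?_⟩
    rw [hd]
    exact hk
  · have h1 := h z hz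
    rw [← hr, mem_ran] at h1
    obtain ⟨k, hk⟩ := h1
    exact ⟨k, maps_iff.2 hk⟩

theorem kfin_of_fm {x : M} (h : FinitelyMany (Model.E (M := M)) om fun z => Model.E z x) :
    KFin x := by
  obtain ⟨n, f, B, hn, hf, h1⟩ := h
  obtain ⟨hf1, hf2, _⟩ := isFunction_iff.1 hf
  have h2 : KFin (img (fun k => app f k) n) := KFin.img _ (KFin.of_mem_om hn)
  refine h2.subset fun z hz => ?_
  obtain ⟨k, hk⟩ := h1 z hz
  rw [maps_iff] at hk
  rw [mem_img]
  refine ⟨k, ?_, (hf1.app_eq hk).symm⟩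
  rw [← hf2, mem_dom]
  exact ⟨z, hk⟩

theorem finiteSet_iff {x : M} : FiniteSet (Model.E (M := M)) om x ↔ KFin x :=
  ⟨kfin_of_fm, fun h => fm_of_kfin h fun z hz => hz⟩

/-- a finite family of sets of natural numbers that are all bounded is uniformly bounded -/
theorem KFin.bdd' (R : M → M → Prop) [Fo₂ R] {x : M} (hx : KFin x)
    (h : ∀ u, u ∈ x → ∃ n, n ∈ (om : M) ∧ ∀ k, R k u → k ∈ n) :
    ∃ n, n ∈ (om : M) ∧ ∀ u, u ∈ x → ∀ k, R k u → k ∈ n := by
  have key : x ⊆ x → ∃ n, n ∈ (om : M) ∧ ∀ u, u ∈ x → ∀ k, R k u → k ∈ n := by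
    refine KFin.induction (fun y => y ⊆ x → ∃ n, n ∈ (om : M) ∧ ∀ u, u ∈ y → ∀ k, R k u → k ∈ n)
      ?_ ?_ hx
    · intro _
      exact ⟨∅, empty_mem_om, fun u hu => absurd hu (notMem_empty u)⟩
    · intro y a _ _ ih hsub
      obtain ⟨n, hn, h1⟩ := ih fun z hz => hsub z (mem_ins.2 (Or.inr hz))
      obtain ⟨m, hm, h2⟩ := h a (hsub a (mem_ins.2 (Or.inl rfl)))
      rcases om_total hn hm with h3 | h3 | h3
      · refine ⟨m, hm, fun u hu k hk => ?_⟩
        rcases mem_ins.1 hu with rfl | hu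
        · exact h2 k hk
        · exact om_trans hm h3 (h1 u hu k hk)
      · subst h3
        refine ⟨n, hn, fun u hu k hk => ?_⟩
        rcases mem_ins.1 hu with rfl | hu
        · exact h2 k hk
        · exact h1 u hu k hk
      · refine ⟨n, hn, fun u hu k hk => ?_⟩
        rcases mem_ins.1 hu with rfl | hu
        · exact om_trans hn h3 (h2 k hk)
        · exact h1 u hu k hk
  exact key (sub_refl' x)

theorem KFin.bdd {x : M} (hx : KFin x) (h : x ⊆ om) : ∃ n, n ∈ (om : M) ∧ ∀ k, k ∈ x → k ∈ n := by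
  obtain ⟨n, hn, h1⟩ := KFin.bdd' (fun k u : M => k = u) hx (fun u hu => ⟨succ u,
    succ_mem_om (h u hu), fun k hk => by rw [hk, mem_succ]; exact Or.inl rfl⟩)
  exact ⟨n, hn, fun k hk => h1 k hk k rfl⟩

/-- unbounded sets of natural numbers are infinite -/
theorem not_finite_of_unb {a : M} (ha : a ⊆ om)
    (h : ∀ n, n ∈ (om : M) → ∃ k, k ∈ a ∧ n ∈ k) : ¬ FiniteSet (Model.E (M := M)) om a := by
  intro hf
  obtain ⟨n, hn, h1⟩ := KFin.bdd (finiteSet_iff.1 hf) ha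
  obtain ⟨k, hk, hnk⟩ := h n hn
  exact notMem_of_mem hnk (h1 k hk)

/-- the `γ`-property -/
theorem gammaProperty_of {Y : M} (hY : ∀ y, y ∈ Y → y ⊆ om)
    (H : ∀ U : M, (∀ u, u ∈ U → IsOpenSubset (Model.E (M := M)) om Y u ∧ ¬ Y ⊆ u) →
      (∀ F : M, KFin F → F ⊆ Y → ∃ u, u ∈ U ∧ F ⊆ u) →
      ∃ R : M, (∀ n, n ∈ (om : M) → ∃ k u, n ∈ k ∧ pr k u ∈ R) ∧
        (∀ k u, pr k u ∈ R → k ∈ (om : M) ∧ u ∈ U) ∧
        (∀ k u u', pr k u ∈ R → pr k u' ∈ R → u = u') ∧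
        ∀ y, y ∈ Y → ∃ n, n ∈ (om : M) ∧ ∀ k u, pr k u ∈ R → n ∈ k → y ∈ u) :
    GammaProperty (Model.E (M := M)) om (IsOpenSubset (Model.E (M := M)) om Y) Y := by
  intro C hC
  obtain ⟨R, h1, h2, h3, h4⟩ := H C
    (fun u hu => ⟨hC.isOpenCover.isOpen u hu, fun hYu => hC.isOpenCover.proper (by
      have : u = Y := sub_antisymm (hC.isOpenCover.isOpen u hu).1 hYu
      rw [← this]
      exact hu)⟩)
    (fun F hF hFY => hC.finite F hFY (finiteSet_iff.2 hF))
  have hmem : ∀ u, u ∈ sep C (fun u => ∃ k, pr k u ∈ R) ↔ u ∈ C ∧ ∃ k, pr k u ∈ R :=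
    fun u => mem_sep
  have hproper : ∀ u, u ∈ C → ¬ Y ⊆ u := fun u hu hYu => hC.isOpenCover.proper (by
      have : u = Y := sub_antisymm (hC.isOpenCover.isOpen u hu).1 hYu
      rw [← this]
      exact hu)
  refine ⟨sep C (fun u => ∃ k, pr k u ∈ R), fun u hu => ((hmem u).1 hu).1, ⟨?_, ?_, ?_⟩, ?_, ?_⟩
  · exact fun u hu => hC.isOpenCover.isOpen u ((hmem u).1 hu).1
  · exact fun h => hC.isOpenCover.proper ((hmem Y).1 h).1
  · intro x hx
    obtain ⟨n, hn, h5⟩ := h4 x hx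
    obtain ⟨k, u, hnk, hR⟩ := h1 n hn
    exact ⟨u, (hmem u).2 ⟨(h2 k u hR).2, k, hR⟩, h5 k u hR hnk⟩
  · intro hf
    have hK : KFin (sep C (fun u => ∃ k, pr k u ∈ R)) := finiteSet_iff.1 hf
    obtain ⟨n, hn, h5⟩ := KFin.bdd' (fun k u : M => pr k u ∈ R) hK (by
      intro u hu
      have h6 := hproper u ((hmem u).1 hu).1
      have h7 : ∃ y, y ∈ Y ∧ y ∉ u := by
        by_contra hcon
        push Not at hcon
        exact h6 hcon
      obtain ⟨y, hy, hyu⟩ := h7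
      obtain ⟨n, hn, h8⟩ := h4 y hy
      refine ⟨succ n, succ_mem_om hn, fun k hk => ?_⟩
      have hko := (h2 k u hk).1
      rcases om_total hn hko with h9 | h9 | h9
      · exact absurd (h8 k u hk h9) hyu
      · rw [← h9, mem_succ]
        exact Or.inl rfl
      · rw [mem_succ]
        exact Or.inr h9)
    obtain ⟨k, u, hnk, hR⟩ := h1 n hn
    exact notMem_of_mem hnk (h5 u ((hmem u).2 ⟨(h2 k u hR).2, k, hR⟩) k hR)
  · intro x hx
    obtain ⟨n, hn, h5⟩ := h4 x hx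
    have hK : KFin (img (fun k => sUn (sep C (fun u => pr k u ∈ R))) (succ n)) :=
      KFin.img _ (KFin.of_mem_om (succ_mem_om hn))
    refine fm_of_kfin hK fun u hu => ?_
    obtain ⟨hu1, hxu⟩ := hu
    obtain ⟨huC, k, hk⟩ := (hmem u).1 hu1
    rw [mem_img]
    refine ⟨k, ?_, ?_⟩
    · rcases om_total hn (h2 k u hk).1 with h9 | h9 | h9
      · exact absurd (h5 k u hk h9) hxu
      · rw [← h9, mem_succ]
        exact Or.inl rfl
      · rw [mem_succ]
        exact Or.inr h9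
    · refine ext' fun z => ?_
      rw [mem_sUn]
      constructor
      · intro hz
        exact ⟨u, mem_sep.2 ⟨huC, hk⟩, hz⟩
      · rintro ⟨y, hy, hz⟩
        rw [h3 k u y hk (mem_sep.1 hy).2]
        exact hz

end Pool.Agent.Lib.MP_820b44_gt
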