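import Pool.Agent.SymExt.Top.TopNotions

/-!
# The core sentence, evaluated in an arbitrary logic
-/

set_option linter.unusedSectionVars false
set_option linter.unusedVariables false
set_option linter.unusedSimpArgs false

universe u v

namespace Pool.Agent.SymExt

namespace Lg

variable {Ω : Type u} {V : Type v} (l : Lg Ω V)

/-- `x` and `y` have the same elements in `n` -/
def sbl (n x y : V) : Ω := l.all fun k => l.imp (l.mem k n) (l.iff (l.mem k x) (l.mem k y))

/-- `U` is an open subset of the set of reals `X` -/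
def opn (w X U : V) : Ω :=
  l.and (l.sub U X) (l.all fun x => l.imp (l.mem x U) (l.ex fun n => l.and (l.mem n w)
    (l.all fun y => l.imp (l.and (l.mem y X) (l.sbl n x y)) (l.mem y U))))

/-- `A` is a set of unbounded subsets of `w` -/
def unb (w A : V) : Ω :=
  l.all fun a => l.imp (l.mem a A) (l.and (l.sub a w) (l.all fun n => l.imp (l.mem n w)
    (l.ex fun k => l.and (l.mem k a) (l.mem n k))))

/-- `Y` is a set of subsets of `w` -/
def rls (w Y : V) : Ω := l.all fun y => l.imp (l.mem y Y) (l.sub y w)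

/-- the `γ`-property -/
def gpr (w Y : V) : Ω :=
  l.all fun U => l.imp
    (l.and (l.all fun u => l.imp (l.mem u U) (l.and (l.opn w Y u) (l.neg (l.sub Y u))))
      (l.all fun F => l.imp (l.and (l.fin F) (l.sub F Y))
        (l.ex fun u => l.and (l.mem u U) (l.sub F u))))
    (l.ex fun R => l.and
      (l.all fun n => l.imp (l.mem n w) (l.ex fun k => l.ex fun u => l.and (l.mem n k)
        (l.app R k u)))
      (l.and (l.all fun k => l.all fun u => l.imp (l.app R k u) (l.and (l.mem k w) (l.mem u U)))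
      (l.and (l.all fun k => l.all fun u => l.all fun u' => l.imp
        (l.and (l.app R k u) (l.app R k u')) (l.eq u u'))
      (l.all fun y => l.imp (l.mem y Y) (l.ex fun n => l.and (l.mem n w)
        (l.all fun k => l.all fun u => l.imp (l.and (l.app R k u) (l.mem n k)) (l.mem y u)))))))

/-- `g` dominates `h` -/
def led (w g h : V) : Ω :=
  l.ex fun N => l.and (l.mem N w) (l.all fun n => l.all fun i => l.all fun j => l.imp
    (l.and (l.mem n w) (l.and (l.mem N n) (l.and (l.app h n i) (l.app g n j))))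
      (l.or (l.mem i j) (l.eq i j)))

/-- no function from `A` to the set of functions has dominating range -/
def sml (w A : V) : Ω :=
  l.all fun F => l.all fun B => l.imp (l.and (l.isFun F A B)
      (l.all fun a => l.all fun g => l.imp (l.app F a g) (l.isFun g w w)))
    (l.ex fun h => l.and (l.isFun h w w) (l.all fun a => l.all fun g =>
      l.imp (l.app F a g) (l.neg (l.led w g h))))

/-- `((a, y), (n, k)) ∈ Z` -/
def ap4 (Z a y n k : V) : Ω := l.ex fun v => l.and (l.isOP v n k) (l.ap2 Z a y v)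

/-- there is a continuous map from `A × Y` onto the partial functions from `w` to `w` -/
def ns1 (w A Y : V) : Ω :=
  l.ex fun Z => l.and
    (l.all fun a => l.all fun y => l.all fun n => l.all fun k => l.all fun k' => l.imp
      (l.and (l.ap4 Z a y n k) (l.ap4 Z a y n k')) (l.eq k k'))
    (l.and (l.all fun a => l.all fun y => l.all fun n => l.all fun k => l.imp
      (l.and (l.mem a A) (l.and (l.mem y Y) (l.and (l.mem n w) (l.and (l.mem k w)
        (l.neg (l.ap4 Z a y n k))))))
      (l.ex fun m => l.and (l.mem m w) (l.all fun a' => l.all fun y' => l.imp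
        (l.and (l.mem a' A) (l.and (l.mem y' Y) (l.and (l.sbl m a a') (l.sbl m y y'))))
        (l.neg (l.ap4 Z a' y' n k)))))
    (l.all fun h => l.imp (l.isFun h w w) (l.ex fun a => l.ex fun y => l.and (l.mem a A)
      (l.and (l.mem y Y) (l.all fun n => l.all fun k => l.imp (l.app h n k)
        (l.ap4 Z a y n k))))))

/-- the core sentence -/
def cor : Ω :=
  l.ex fun w => l.ex fun A => l.ex fun Y => l.and (l.isOm w) (l.and (l.unb w A)
    (l.and (l.rls w Y) (l.and (l.gpr w Y) (l.and (l.sml w A) (l.ns1 w A Y)))))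

end Lg

namespace Fm

/-- same elements -/
def sbl (m x y n : ℕ) : Fm := .all n (.imp (.mem n m) (.iff (.mem n x) (.mem n y)))

/-- open -/
def opn (w X U n : ℕ) : Fm :=
  .and (.sub U X n) (.all n (.imp (.mem n U) (.ex (n + 1) (.and (.mem (n + 1) w)
    (.all (n + 2) (.imp (.and (.mem (n + 2) X) (.sbl (n + 1) n (n + 2) (n + 3)))
      (.mem (n + 2) U)))))))

/-- unbounded -/
def unb (w A n : ℕ) : Fm :=
  .all n (.imp (.mem n A) (.and (.sub n w (n + 1)) (.all (n + 1) (.imp (.mem (n + 1) w)
    (.ex (n + 2) (.and (.mem (n + 2) n) (.mem (n + 1) (n + 2))))))))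

/-- set of reals -/
def rls (w Y n : ℕ) : Fm := .all n (.imp (.mem n Y) (.sub n w (n + 1)))

/-- the `γ`-property -/
def gpr (w Y n : ℕ) : Fm :=
  .all n (.imp
    (.and (.all (n + 1) (.imp (.mem (n + 1) n) (.and (.opn w Y (n + 1) (n + 2))
        (.neg (.sub Y (n + 1) (n + 2))))))
      (.all (n + 1) (.imp (.and (.fin (n + 1) (n + 2)) (.sub (n + 1) Y (n + 2)))
        (.ex (n + 2) (.and (.mem (n + 2) n) (.sub (n + 1) (n + 2) (n + 3)))))))
    (.ex (n + 1) (.and
      (.all (n + 2) (.imp (.mem (n + 2) w) (.ex (n + 3) (.ex (n + 4) (.and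
        (.mem (n + 2) (n + 3)) (.app (n + 1) (n + 3) (n + 4) (n + 5)))))))
      (.and (.all (n + 2) (.all (n + 3) (.imp (.app (n + 1) (n + 2) (n + 3) (n + 4))
        (.and (.mem (n + 2) w) (.mem (n + 3) n)))))
      (.and (.all (n + 2) (.all (n + 3) (.all (n + 4) (.imp
        (.and (.app (n + 1) (n + 2) (n + 3) (n + 5)) (.app (n + 1) (n + 2) (n + 4) (n + 5)))
          (.eq (n + 3) (n + 4))))))
      (.all (n + 2) (.imp (.mem (n + 2) Y) (.ex (n + 3) (.and (.mem (n + 3) w)
        (.all (n + 4) (.all (n + 5) (.imp (.and (.app (n + 1) (n + 4) (n + 5) (n + 6))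
          (.mem (n + 3) (n + 4))) (.mem (n + 2) (n + 5))))))))))))))

/-- dominates -/
def led (w g h n : ℕ) : Fm :=
  .ex n (.and (.mem n w) (.all (n + 1) (.all (n + 2) (.all (n + 3) (.imp
    (.and (.mem (n + 1) w) (.and (.mem n (n + 1)) (.and (.app h (n + 1) (n + 2) (n + 4))
      (.app g (n + 1) (n + 3) (n + 4))))) (.or (.mem (n + 2) (n + 3)) (.eq (n + 2) (n + 3))))))))

/-- smaller than the dominating number -/
def sml (w A n : ℕ) : Fm :=
  .all n (.all (n + 1) (.imp (.and (.isFun n A (n + 1) (n + 2))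
      (.all (n + 2) (.all (n + 3) (.imp (.app n (n + 2) (n + 3) (n + 4))
        (.isFun (n + 3) w w (n + 4))))))
    (.ex (n + 2) (.and (.isFun (n + 2) w w (n + 3)) (.all (n + 3) (.all (n + 4)
      (.imp (.app n (n + 3) (n + 4) (n + 5)) (.neg (.led w (n + 4) (n + 2) (n + 5))))))))))

/-- pair in a relation between pairs -/
def ap4 (Z a y m k n : ℕ) : Fm := .ex n (.and (.isOP n m k (n + 1)) (.ap2 Z a y n (n + 1)))

/-- continuous map -/
def ns1 (w A Y n : ℕ) : Fm :=
  .ex n (.and
    (.all (n + 1) (.all (n + 2) (.all (n + 3) (.all (n + 4) (.all (n + 5) (.imp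
      (.and (.ap4 n (n + 1) (n + 2) (n + 3) (n + 4) (n + 6))
        (.ap4 n (n + 1) (n + 2) (n + 3) (n + 5) (n + 6))) (.eq (n + 4) (n + 5))))))))
    (.and (.all (n + 1) (.all (n + 2) (.all (n + 3) (.all (n + 4) (.imp
      (.and (.mem (n + 1) A) (.and (.mem (n + 2) Y) (.and (.mem (n + 3) w) (.and (.mem (n + 4) w)
        (.neg (.ap4 n (n + 1) (n + 2) (n + 3) (n + 4) (n + 5)))))))
      (.ex (n + 5) (.and (.mem (n + 5) w) (.all (n + 6) (.all (n + 7) (.imp
        (.and (.mem (n + 6) A) (.and (.mem (n + 7) Y) (.and (.sbl (n + 5) (n + 1) (n + 6) (n + 8))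
          (.sbl (n + 5) (n + 2) (n + 7) (n + 8)))))
        (.neg (.ap4 n (n + 6) (n + 7) (n + 3) (n + 4) (n + 8)))))))))))))
    (.all (n + 1) (.imp (.isFun (n + 1) w w (n + 2)) (.ex (n + 2) (.ex (n + 3)
      (.and (.mem (n + 2) A) (.and (.mem (n + 3) Y) (.all (n + 4) (.all (n + 5)
        (.imp (.app (n + 1) (n + 4) (n + 5) (n + 6))
          (.ap4 n (n + 2) (n + 3) (n + 4) (n + 5) (n + 6)))))))))))))

/-- the core sentence -/
def cor : Fm :=
  .ex 0 (.ex 1 (.ex 2 (.and (.isOm 0 3) (.and (.unb 0 1 3) (.and (.rls 0 2 3)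
    (.and (.gpr 0 2 3) (.and (.sml 0 1 3) (.ns1 0 1 2 3))))))))

end Fm

section eval

variable {Ω : Type u} {V : Type v} (l : Lg Ω V)

theorem eval_sbl {m x y n : ℕ} (hm : m < n) (hx : x < n) (hy : y < n) (s : ℕ → V) :
    l.eval (.sbl m x y n) s = l.sbl (s m) (s x) (s y) := by
  simp (disch := omega) only [Fm.sbl, Lg.sbl, Lg.eval, Lg.eval_iff,
    Function.update_of_ne, Function.update_self]

theorem eval_opn {w X U n : ℕ} (hw : w < n) (hX : X < n) (hU : U < n) (s : ℕ → V) :
    l.eval (.opn w X U n) s = l.opn (s w) (s X) (s U) := by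
  simp (disch := omega) only [Fm.opn, Lg.opn, Lg.eval, Lg.eval_ex, Lg.eval_and, eval_sub,
    eval_sbl, Function.update_of_ne, Function.update_self]

theorem eval_unb {w A n : ℕ} (hw : w < n) (hA : A < n) (s : ℕ → V) :
    l.eval (.unb w A n) s = l.unb (s w) (s A) := by
  simp (disch := omega) only [Fm.unb, Lg.unb, Lg.eval, Lg.eval_ex, Lg.eval_and, eval_sub,
    Function.update_of_ne, Function.update_self]

theorem eval_rls {w Y n : ℕ} (hw : w < n) (hY : Y < n) (s : ℕ → V) :
    l.eval (.rls w Y n) s = l.rls (s w) (s Y) := by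
  simp (disch := omega) only [Fm.rls, Lg.rls, Lg.eval, eval_sub,
    Function.update_of_ne, Function.update_self]

theorem eval_gpr {w Y n : ℕ} (hw : w < n) (hY : Y < n) (s : ℕ → V) :
    l.eval (.gpr w Y n) s = l.gpr (s w) (s Y) := by
  simp (disch := omega) only [Fm.gpr, Lg.gpr, Lg.eval, Lg.eval_ex, Lg.eval_and, Lg.eval_neg,
    eval_sub, eval_opn, eval_fin, eval_app, Function.update_of_ne, Function.update_self]

theorem eval_led {w g h n : ℕ} (hw : w < n) (hg : g < n) (hh : h < n) (s : ℕ → V) :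
    l.eval (.led w g h n) s = l.led (s w) (s g) (s h) := by
  simp (disch := omega) only [Fm.led, Lg.led, Lg.eval, Lg.eval_ex, Lg.eval_and, Lg.eval_or,
    eval_app, Function.update_of_ne, Function.update_self]

theorem eval_sml {w A n : ℕ} (hw : w < n) (hA : A < n) (s : ℕ → V) :
    l.eval (.sml w A n) s = l.sml (s w) (s A) := by
  simp (disch := omega) only [Fm.sml, Lg.sml, Lg.eval, Lg.eval_ex, Lg.eval_and, Lg.eval_neg,
    eval_isFun, eval_led, eval_app, Function.update_of_ne, Function.update_self]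

theorem eval_ap4 {Z a y m k n : ℕ} (hZ : Z < n) (ha : a < n) (hy : y < n) (hm : m < n)
    (hk : k < n) (s : ℕ → V) :
    l.eval (.ap4 Z a y m k n) s = l.ap4 (s Z) (s a) (s y) (s m) (s k) := by
  simp (disch := omega) only [Fm.ap4, Lg.ap4, Lg.eval_ex, Lg.eval_and, eval_isOP, eval_ap2,
    Function.update_of_ne, Function.update_self]

theorem eval_ns1 {w A Y n : ℕ} (hw : w < n) (hA : A < n) (hY : Y < n) (s : ℕ → V) :
    l.eval (.ns1 w A Y n) s = l.ns1 (s w) (s A) (s Y) := by
  simp (disch := omega) only [Fm.ns1, Lg.ns1, Lg.eval, Lg.eval_ex, Lg.eval_and, Lg.eval_neg,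
    eval_isFun, eval_ap4, eval_app, eval_sbl, Function.update_of_ne, Function.update_self]

theorem eval_cor (s : ℕ → V) : l.eval .cor s = l.cor := by
  simp (disch := omega) only [Fm.cor, Lg.cor, Lg.eval_ex, Lg.eval_and,
    eval_isOm, eval_unb, eval_rls, eval_gpr, eval_sml, eval_ns1,
    Function.update_of_ne, Function.update_self]

end eval

end Pool.Agent.SymExt
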