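import Pool.Agent.SymExt.Top.Fun
import Pool.Agent.Lib.MP_820b44_gt.Br.Notions
import Pool.Agent.Lib.MP_820b44_gt.Core

/-!
# Names of sets of natural numbers
-/

set_option linter.unusedSectionVars false
set_option linter.unusedVariables false
set_option linter.unusedSimpArgs false

namespace Pool.Agent.Lib.MP_820b44_gt

open Pool.Agent.SymExt SN

section ro

variable {P : Type} [Preorder P]

/-- existential quantifier -/
def roE {ι : Type*} (f : ι → RO P) : RO P :=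
  ⟨fun p => ∀ q ≤ p, ∃ r ≤ q, ∃ i, f i r, fun h h1 q hq => h1 q (hq.trans h),
    fun {p} h q hq => by
      obtain ⟨r, hr, h1⟩ := h q hq
      obtain ⟨s, hs, i, hi⟩ := h1 r le_rfl
      exact ⟨s, hs.trans hr, i, hi⟩⟩

/-- conjunction -/
def roA (a b : RO P) : RO P :=
  ⟨fun p => a p ∧ b p, fun h h1 => ⟨a.mono h h1.1, b.mono h h1.2⟩,
    fun {p} h => ⟨a.dense fun q hq => by
      obtain ⟨r, hr, h1⟩ := h q hq
      exact ⟨r, hr, h1.1⟩, b.dense fun q hq => by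
      obtain ⟨r, hr, h1⟩ := h q hq
      exact ⟨r, hr, h1.2⟩⟩⟩

theorem roE_iff {ι : Type*} {f : ι → RO P} {p : P} :
    roE f p ↔ ∀ q ≤ p, ∃ r ≤ q, ∃ i, f i r := Iff.rfl

theorem roA_iff {a b : RO P} {p : P} : roA a b p ↔ a p ∧ b p := Iff.rfl

theorem roAll_iff {V : Type*} {f : V → RO P} {p : P} : RO.all f p ↔ ∀ x, f x p := Iff.rfl

theorem roImp_iff {a b : RO P} {p : P} : RO.imp a b p ↔ ∀ q ≤ p, a q → b q := Iff.rfl

theorem roBot_iff {p : P} : (RO.bot : RO P) p ↔ False := Iff.rfl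

theorem roE_of {ι : Type*} {f : ι → RO P} {p : P} (i : ι) (h : f i p) : roE f p :=
  fun q hq => ⟨q, le_rfl, i, (f i).mono hq h⟩

theorem Dec.mono {x : ℕ → RO P} {k : ℕ} {s : Finset ℕ} {p q : P} (hq : q ≤ p)
    (h : Dec x k s p) : Dec x k s q :=
  fun i hi => ⟨fun h1 => (x i).mono hq ((h i hi).1 h1), fun h1 r hr => (h i hi).2 h1 r (hr.trans hq)⟩

theorem InC.mono {x : ℕ → RO P} {m : ℕ} {p q : P} (hq : q ≤ p) (h : InC x m p) : InC x m q :=
  fun r hr => h r (hr.trans hq)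

theorem InC.dense {x : ℕ → RO P} {m : ℕ} {p : P} (h : ∀ q ≤ p, ∃ r ≤ q, InC x m r) :
    InC x m p := by
  intro q hq
  obtain ⟨r, hr, h1⟩ := h q hq
  obtain ⟨s, hs, h2⟩ := h1 r le_rfl
  exact ⟨s, hs.trans hr, h2⟩

/-- truth value of `x` being in the clopen set number `m` -/
def roC (x : ℕ → RO P) (m : ℕ) : RO P := ⟨InC x m, fun h h1 => h1.mono h, fun h => InC.dense h⟩

theorem exists_Dec (x : ℕ → RO P) (k : ℕ) (p : P) :
    ∃ q ≤ p, ∃ s : Finset ℕ, Dec x k s q := by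
  classical
  induction k generalizing p with
  | zero => exact ⟨p, le_rfl, ∅, fun i hi => absurd hi (Nat.not_lt_zero i)⟩
  | succ k ih =>
    obtain ⟨q, hq, s, hs⟩ := ih p
    by_cases h : ∃ r ≤ q, x k r
    · obtain ⟨r, hr, h⟩ := h
      refine ⟨r, hr.trans hq, insert k s, fun i hi => ?_⟩
      rcases Nat.lt_succ_iff_lt_or_eq.1 hi with h1 | h1
      · have h2 := (hs.mono hr) i h1
        have h3 : i ∈ insert k s ↔ i ∈ s := by
          rw [Finset.mem_insert]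
          exact ⟨fun h => h.resolve_left (by omega), Or.inr⟩
        rw [h3]
        exact h2
      · subst h1
        exact ⟨fun _ => h, fun h4 => absurd (Finset.mem_insert_self i s) h4⟩
    · refine ⟨q, hq, s.erase k, fun i hi => ?_⟩
      rcases Nat.lt_succ_iff_lt_or_eq.1 hi with h1 | h1
      · have h2 := hs i h1
        have h3 : i ∈ s.erase k ↔ i ∈ s := by
          rw [Finset.mem_erase]
          exact ⟨fun h => h.2, fun h => ⟨by omega, h⟩⟩
        rw [h3]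
        exact h2
      · subst h1
        refine ⟨fun h4 => absurd h4 (Finset.notMem_erase i s), fun _ r hr h5 => h ⟨r, hr, h5⟩⟩

end ro

theorem list_dense' {P : Type} [Preorder P] {α β : Type} (Φ : α → β → P → Prop)
    (hm : ∀ a b {p q}, q ≤ p → Φ a b p → Φ a b q) (L : List α) (p : P)
    (h : ∀ a ∈ L, ∀ q ≤ p, ∃ r ≤ q, ∃ b, Φ a b r) : ∃ r ≤ p, ∃ M : List β,
      (∀ a ∈ L, ∃ b ∈ M, Φ a b r) ∧ ∀ b ∈ M, ∃ a ∈ L, Φ a b r := by
  induction L with
  | nil => exact ⟨p, le_rfl, [], by simp, by simp⟩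
  | cons a L ih =>
    obtain ⟨r, hr, M, h1, h2⟩ := ih fun a ha => h a (List.mem_cons_of_mem _ ha)
    obtain ⟨s, hs, b, hb⟩ := h a List.mem_cons_self r hr
    refine ⟨s, hs.trans hr, b :: M, fun a' ha' => ?_, fun b' hb' => ?_⟩
    · rcases List.mem_cons.1 ha' with rfl | ha'
      · exact ⟨b, List.mem_cons_self, hb⟩
      · obtain ⟨b', h3, h4⟩ := h1 a' ha'
        exact ⟨b', List.mem_cons_of_mem _ h3, hm _ _ hs h4⟩
    · rcases List.mem_cons.1 hb' with rfl | hb'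
      · exact ⟨a, List.mem_cons_self, hb⟩
      · obtain ⟨a', h3, h4⟩ := h2 b' hb'
        exact ⟨a', List.mem_cons_of_mem _ h3, hm _ _ hs h4⟩

variable {P : Type} [PartialOrder P] [OrderTop P]

/-- the name of the set of natural numbers with truth values `x` -/
noncomputable def rn (x : ℕ → RO P) : VN P := nn on x

theorem m_rn {x : ℕ → RO P} {z : VN P} {p : P} :
    m z (rn x) p ↔ ∀ q ≤ p, ∃ r ≤ q, ∃ n, x n r ∧ e z (on n) r := m_nn

theorem on_rn {x : ℕ → RO P} {n : ℕ} {p : P} : m (on n) (rn x) p ↔ x n p := m_nn_iff rig_on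

theorem rn_sub_om {x : ℕ → RO P} {z : VN P} {p : P} (h : m z (rn x) p) : m z (om P) p :=
  m_om.2 fun q hq => by
    obtain ⟨r, hr, n, _, hn⟩ := m_rn.1 h q hq
    exact ⟨r, hr, n, hn⟩

theorem sbl_iff {n x y : VN P} {p : P} : (lg : Lg (RO P) (VN P)).sbl n x y p ↔
    ∀ k, ∀ q ≤ p, m k n q → ∀ r ≤ q, (m k x r ↔ m k y r) := by
  simp only [Lg.sbl, ro_all, ro_imp, ro_iff, ro_mem]

theorem sbl_on {n : ℕ} {x y : VN P} {p : P} : (lg : Lg (RO P) (VN P)).sbl (on n) x y p ↔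
    ∀ k < n, ∀ q ≤ p, (m (on k) x q ↔ m (on k) y q) := by
  rw [sbl_iff]
  constructor
  · intro h k hk q hq
    exact h (on k) q hq (m_on_on.2 hk) q le_rfl
  · intro h
    have key : ∀ x y : VN P, (∀ k < n, ∀ q ≤ p, (m (on k) x q → m (on k) y q)) →
        ∀ k : VN P, ∀ q ≤ p, m k (on n) q → m k x q → m k y q := by
      intro x y h k q hq hk hx
      refine RO.dense _ fun r hr => ?_
      obtain ⟨s, hs, i, hi, he⟩ := m_on.1 hk r hr
      have h1 : m (on i) x s := m_left he (RO.mono _ (hs.trans hr) hx)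
      exact ⟨s, hs, m_left (e_symm he) (h i hi s (hs.trans (hr.trans hq)) h1)⟩
    intro k q hq hk r hr
    exact ⟨key x y (fun k hk q hq => (h k hk q hq).1) k r (hr.trans hq) (RO.mono _ hr hk),
      key y x (fun k hk q hq => (h k hk q hq).2) k r (hr.trans hq) (RO.mono _ hr hk)⟩

theorem sbl_congr {n n' x x' y y' : VN P} {p : P} (hn : e n n' p) (hx : e x x' p)
    (hy : e y y' p) (h : (lg : Lg (RO P) (VN P)).sbl n x y p) :
    (lg : Lg (RO P) (VN P)).sbl n' x' y' p := by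
  rw [sbl_iff] at h ⊢
  intro k q hq hk r hr
  have h1 := h k q hq (m_right (e_symm (RO.mono _ hq hn)) hk) r hr
  have hx' := RO.mono _ (hr.trans hq) hx
  have hy' := RO.mono _ (hr.trans hq) hy
  exact ⟨fun h2 => m_right hy' (h1.1 (m_right (e_symm hx') h2)),
    fun h2 => m_right hx' (h1.2 (m_right (e_symm hy') h2))⟩

theorem opn_iff {w X U : VN P} {p : P} : (lg : Lg (RO P) (VN P)).opn w X U p ↔
    (∀ z, ∀ q ≤ p, m z U q → m z X q) ∧ ∀ x, ∀ q ≤ p, m x U q → ∀ r ≤ q, ∃ s ≤ r, ∃ n,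
      m n w s ∧ ∀ y, ∀ t ≤ s, m y X t → (lg : Lg (RO P) (VN P)).sbl n x y t → m y U t := by
  simp only [Lg.opn, ro_all, ro_imp, ro_and, ro_ex, ro_mem, sub_iff, and_imp]

/-- neighbourhoods given by actual natural numbers -/
theorem opn_on {X U x : VN P} {p : P} (h : (lg : Lg (RO P) (VN P)).opn (om P) X U p)
    (hx : m x U p) : ∀ q ≤ p, ∃ r ≤ q, ∃ n : ℕ, ∀ y, ∀ t ≤ r, m y X t →
      (lg : Lg (RO P) (VN P)).sbl (on n) x y t → m y U t := by
  intro q hq
  obtain ⟨s, hs, n, hn, h1⟩ := (opn_iff.1 h).2 x p le_rfl hx q hq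
  obtain ⟨t, ht, k, hk⟩ := m_om.1 hn s le_rfl
  refine ⟨t, ht.trans hs, k, fun y u hu hy hy' => h1 y u (hu.trans ht) hy ?_⟩
  exact sbl_congr (e_symm (RO.mono _ hu hk)) (e_refl _ _) (e_refl _ _) hy'

theorem ap4_iff {Z a y n k : VN P} {p : P} : (lg : Lg (RO P) (VN P)).ap4 Z a y n k p ↔
    m (op (op a y) (op n k)) Z p := by
  simp only [Lg.ap4, ro_ex, ro_and, isOP_iff, ap2_iff]
  constructor
  · intro h
    refine RO.dense _ fun q hq => ?_
    obtain ⟨r, hr, v, hv, h1⟩ := h q hq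
    exact ⟨r, hr, m_left (op_congr (e_refl _ _) hv) h1⟩
  · intro h q hq
    exact ⟨q, le_rfl, op n k, e_refl _ _, RO.mono _ hq h⟩

theorem led_iff {w g h : VN P} {p : P} : (lg : Lg (RO P) (VN P)).led w g h p ↔
    ∀ q ≤ p, ∃ r ≤ q, ∃ N, m N w r ∧ ∀ n i j, ∀ s ≤ r, m n w s → m N n s → m (op n i) h s →
      m (op n j) g s → ∀ t ≤ s, ∃ u ≤ t, m i j u ∨ e i j u := by
  simp only [Lg.led, ro_all, ro_imp, ro_and, ro_ex, ro_or, ro_mem, ro_eq, app_iff, and_imp]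

section names

variable {I J : Type} (K : Core P I J)

/-- the name of `A` -/
noncomputable def AN : VN P := fm fun i => rn (K.a i)

/-- the name of `Y` -/
noncomputable def YN : VN P := fm fun j => rn (K.y j)

theorem m_AN {z : VN P} {p : P} : m z (AN K) p ↔ ∀ q ≤ p, ∃ r ≤ q, ∃ i, e z (rn (K.a i)) r :=
  m_fm

theorem m_YN {z : VN P} {p : P} : m z (YN K) p ↔ ∀ q ≤ p, ∃ r ≤ q, ∃ j, e z (rn (K.y j)) r :=
  m_fm

theorem forced_unb (p : P) : (lg : Lg (RO P) (VN P)).unb (om P) (AN K) p := by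
  simp only [Lg.unb, ro_all, ro_imp, ro_and, ro_ex, ro_mem, sub_iff]
  intro x q hq hx
  refine ⟨fun z r hr hz => RO.dense _ fun s hs => ?_, fun n r hr hn s hs => ?_⟩
  · obtain ⟨t, ht, i, hi⟩ := (m_AN K).1 hx s (hs.trans hr)
    exact ⟨t, ht, rn_sub_om (m_right hi (RO.mono _ (ht.trans hs) hz))⟩
  · obtain ⟨t, ht, i, hi⟩ := (m_AN K).1 hx s (hs.trans hr)
    obtain ⟨u, hu, k, hk⟩ := m_om.1 hn t (ht.trans hs)
    obtain ⟨v, hv, l, hl, hal⟩ := K.inf i u k
    refine ⟨v, hv.trans (hu.trans ht), on l, m_right (e_symm (RO.mono _ (hv.trans hu) hi))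
      (on_rn.2 hal), m_left (e_symm (RO.mono _ hv hk)) (m_on_on.2 hl)⟩

theorem forced_rls (p : P) : (lg : Lg (RO P) (VN P)).rls (om P) (YN K) p := by
  simp only [Lg.rls, ro_all, ro_imp, ro_mem, sub_iff]
  intro x q hq hx z r hr hz
  refine RO.dense _ fun s hs => ?_
  obtain ⟨t, ht, i, hi⟩ := (m_YN K).1 hx s (hs.trans hr)
  exact ⟨t, ht, rn_sub_om (m_right hi (RO.mono _ (ht.trans hs) hz))⟩

end names

end Pool.Agent.Lib.MP_820b44_gt
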