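import Pool.Agent.Lib.MP_820b44_gt.Br.ConvA

/-!
# From the core sentence to the statement, in a model of `ZF`: failure of `S₁(Γ, O)`
-/

set_option linter.unusedSectionVars false
set_option linter.unusedVariables false

universe u

namespace Pool.Agent.Lib.MP_820b44_gt

open Pool.Agent.ZF Pool.Agent.Lib.MP_1929a6_lc Pool.Agent.Lib.MP_1ab623_gt

variable {M : Type u} [Model M]

/-- the set of the points `p` with `(p, (n, k))` not in `Z` -/
noncomputable def VV (D Z n k : M) : M := sep D (fun p => pr p (pr n k) ∉ Z)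

instance : Ft₄ (VV : M → M → M → M → M) := by unfold VV; infer_instance

theorem mem_VV {D Z n k p : M} : p ∈ VV D Z n k ↔ p ∈ D ∧ pr p (pr n k) ∉ Z := mem_sep

theorem not_selection {A Y D Z : M}
    (hD : ∀ p, p ∈ D ↔ ∃ a y, a ∈ A ∧ y ∈ Y ∧ p = pr a y)
    (h1 : ∀ a y n k k', pr (pr a y) (pr n k) ∈ Z → pr (pr a y) (pr n k') ∈ Z → k = k')
    (h2 : ∀ a y n k, a ∈ A → y ∈ Y → n ∈ (om : M) → k ∈ (om : M) → pr (pr a y) (pr n k) ∉ Z →
      ∃ m, m ∈ (om : M) ∧ ∀ a' y', a' ∈ A → y' ∈ Y → AgreeBelow (Model.E (M := M)) m a a' →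
        AgreeBelow (Model.E (M := M)) m y y' → pr (pr a' y') (pr n k) ∉ Z)
    (h3 : ∀ h, IsFunction (Model.E (M := M)) h om om → ∃ a y, a ∈ A ∧ y ∈ Y ∧
      ∀ n k, pr n k ∈ h → pr (pr a y) (pr n k) ∈ Z) :
    ¬ SelectionGammaO (Model.E (M := M)) om
      (IsOpenSubsetOfProduct (Model.E (M := M)) om A Y D) D := by
  intro hS
  -- points outside the `k`-th set
  have hpt : ∀ n k, n ∈ (om : M) → k ∈ (om : M) → ∃ a y, a ∈ A ∧ y ∈ Y ∧
      pr (pr a y) (pr n k) ∈ Z := by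
    intro n k hn hk
    obtain ⟨a, y, ha, hy, h⟩ := h3 (gr (fun _ => k) om) (isFunction_iff.2 ⟨gr_isFn, dom_gr,
      fun x hx => by rw [app_gr hx]; exact hk⟩)
    exact ⟨a, y, ha, hy, h n k (pr_mem_gr.2 ⟨hn, rfl⟩)⟩
  have hinj : ∀ n k k', n ∈ (om : M) → k ∈ (om : M) → VV D Z n k = VV D Z n k' → k = k' := by
    intro n k k' hn hk he
    obtain ⟨a, y, ha, hy, h⟩ := hpt n k hn hk
    have h4 : pr a y ∉ VV D Z n k := fun h5 => (mem_VV.1 h5).2 h
    rw [he, mem_VV] at h4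
    by_contra hne
    exact h4 ⟨(hD _).2 ⟨a, y, ha, hy, rfl⟩, fun h5 => hne (h1 a y n k k' h h5)⟩
  have hcov : ∀ n, n ∈ (om : M) → IsGammaCover (Model.E (M := M)) om
      (IsOpenSubsetOfProduct (Model.E (M := M)) om A Y D) D (img (fun k => VV D Z n k) om) := by
    intro n hn
    refine ⟨⟨fun U hU => ?_, fun hm => ?_, fun x hx => ?_⟩, fun hf => ?_, fun x hx => ?_⟩
    · obtain ⟨k, hk, rfl⟩ := mem_img.1 hU
      refine ⟨fun p hp => (mem_VV.1 hp).1, fun a y hay => ?_⟩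
      rw [maps_iff, mem_VV] at hay
      obtain ⟨a0, y0, ha, hy, he⟩ := (hD _).1 hay.1
      obtain ⟨rfl, rfl⟩ := pr_inj.1 he
      obtain ⟨m, hm, h⟩ := h2 a y n k ha hy hn hk hay.2
      refine ⟨m, hm, fun a' y' ha' hy' h4 h5 => ?_⟩
      rw [maps_iff, mem_VV]
      exact ⟨(hD _).2 ⟨a', y', ha', hy', rfl⟩, h a' y' ha' hy' h4 h5⟩
    · obtain ⟨k, hk, he⟩ := mem_img.1 hm
      obtain ⟨a, y, ha, hy, h⟩ := hpt n k hn hk
      have h4 : pr a y ∈ VV D Z n k := by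
        rw [← he]
        exact (hD _).2 ⟨a, y, ha, hy, rfl⟩
      exact (mem_VV.1 h4).2 h
    · obtain ⟨a, y, ha, hy, rfl⟩ := (hD x).1 hx
      by_cases h4 : pr (pr a y) (pr n ∅) ∈ Z
      · refine ⟨VV D Z n (succ ∅), mem_img.2 ⟨succ ∅, succ_mem_om empty_mem_om, rfl⟩,
          mem_VV.2 ⟨hx, fun h5 => ?_⟩⟩
        exact succ_ne_empty ∅ (h1 a y n ∅ (succ ∅) h4 h5).symm
      · exact ⟨VV D Z n ∅, mem_img.2 ⟨∅, empty_mem_om, rfl⟩, mem_VV.2 ⟨hx, h4⟩⟩
    · refine om_not_KFin (M := M) (KFin.of_injOn (fun k => VV D Z n k)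
        (y := img (fun k => VV D Z n k) om) (finiteSet_iff.1 hf)
        (fun k hk => mem_img.2 ⟨k, hk, rfl⟩) fun k hk k' hk' he => hinj n k k' hn hk he)
    · obtain ⟨a, y, ha, hy, rfl⟩ := (hD x).1 hx
      by_cases h4 : ∃ k, pr (pr a y) (pr n k) ∈ Z
      · obtain ⟨k0, h4⟩ := h4
        refine fm_of_kfin (KFin.sing (VV D Z n k0)) fun U hU => ?_
        obtain ⟨k, hk, rfl⟩ := mem_img.1 hU.1
        rw [mem_sing]
        have h5 : pr (pr a y) (pr n k) ∈ Z := by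
          by_contra h6
          exact hU.2 (mem_VV.2 ⟨hx, h6⟩)
        rw [h1 a y n k k0 h5 h4]
      · refine fm_of_kfin (KFin.empty (M := M)) fun U hU => ?_
        obtain ⟨k, hk, rfl⟩ := mem_img.1 hU.1
        exact absurd (mem_VV.2 ⟨hx, fun h6 => h4 ⟨k, h6⟩⟩) hU.2
  obtain ⟨s, T, hs, hs2, hs3⟩ := hS (gr (fun n => img (fun k => VV D Z n k) om) om)
    (ran (gr (fun n => img (fun k => VV D Z n k) om) om))
    (isFunction_iff.2 ⟨gr_isFn, dom_gr, fun n hn => by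
      rw [mem_ran, app_gr hn]
      exact ⟨n, pr_mem_gr.2 ⟨hn, rfl⟩⟩⟩)
    (fun n C hnC => by
      rw [maps_iff, pr_mem_gr] at hnC
      rw [hnC.2]
      exact hcov n hnC.1)
  obtain ⟨hsf, hsd, _⟩ := isFunction_iff.1 hs
  -- the choice function
  have hchoice : ∀ n, n ∈ (om : M) →
      least (sep om (fun k => app s n = VV D Z n k)) ∈ (om : M) ∧
      app s n = VV D Z n (least (sep om (fun k => app s n = VV D Z n k))) := by
    intro n hn
    have h4 : ∃ k, k ∈ sep (om : M) (fun k => app s n = VV D Z n k) := by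
      have h5 : Maps (Model.E (M := M)) s n (app s n) := by
        rw [maps_iff]
        refine hsf.app_mem ?_
        rw [hsd]
        exact hn
      have h6 := hs2 n (img (fun k => VV D Z n k) om) (app s n)
        (maps_iff.2 (pr_mem_gr.2 ⟨hn, rfl⟩)) h5
      obtain ⟨k, hk, he⟩ := mem_img.1 h6
      exact ⟨k, mem_sep.2 ⟨hk, he⟩⟩
    have h5 := least_mem (fun k hk => (mem_sep.1 hk).1) h4
    exact mem_sep.1 h5
  obtain ⟨a, y, ha, hy, h⟩ := h3
    (gr (fun n => least (sep om (fun k => app s n = VV D Z n k))) om)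
    (isFunction_iff.2 ⟨gr_isFn, dom_gr, fun n hn => by
      rw [app_gr hn]
      exact (hchoice n hn).1⟩)
  obtain ⟨n, U, hnU, hxU⟩ := hs3 (pr a y) ((hD _).2 ⟨a, y, ha, hy, rfl⟩)
  rw [maps_iff] at hnU
  have hn : n ∈ (om : M) := by
    rw [← hsd, mem_dom]
    exact ⟨U, hnU⟩
  have h4 := h n _ (pr_mem_gr.2 ⟨hn, rfl⟩)
  have h5 : U = VV D Z n (least (sep om (fun k => app s n = VV D Z n k))) := by
    rw [← (hchoice n hn).2]
    exact (hsf.app_eq hnU).symm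
  rw [h5] at hxU
  exact (mem_VV.1 hxU).2 h4

end Pool.Agent.Lib.MP_820b44_gt
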